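import Pool.Agent.H18.XX.TB
import Pool.Agent.H70.EI.Targets

/-!
# CLO: the answers of the instances of bounded scale are formulas
-/

set_option autoImplicit false

namespace Pool.Agent.H32.XX

open Finset Pool.Agent.H6.NB Pool.Agent.H70.OQ Pool.Agent.H70.EH Pool.Agent.H70.EI Pool.Agent.H78.XQ
open Pool.Agent.H66.IP (Local ins sp dm IsZ scl mBp m0p)
open Pool.Agent.H66.IQ Pool.Agent.H66.AV
open Pool.Agent.H18.XX

theorem enc_inj : ∀ (n n' : ℕ) (x x' : List Bool),
    List.replicate n true ++ false :: x = List.replicate n' true ++ false :: x' →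
    n = n' ∧ x = x' := by
  intro n
  induction n with
  | zero =>
    intro n' x x' h
    cases n' with
    | zero => simpa using h
    | succ n' => simp [List.replicate_succ] at h
  | succ n ih =>
    intro n' x x' h
    cases n' with
    | zero => simp [List.replicate_succ] at h
    | succ n' =>
      simp only [List.replicate_succ, List.cons_append, List.cons.injEq, true_and] at h
      obtain ⟨h1, h2⟩ := ih n' x x' h
      exact ⟨by omega, h2⟩

theorem bd_le (r t : ℕ) (hr : 20 ≤ r) (ht : t ≤ r) : 2 ^ t ≤ bd r := by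
  unfold bd
  refine Nat.pow_le_pow_right (by norm_num) ?_
  have h1 : r + r ≤ r ^ 2 := by nlinarith
  omega

theorem card_le (h4 : Pool.Agent.H6.NB.T_FIS) (W : ℕ → Local) (E : Finset (ℕ × List Bool)) (r : ℕ)
    (hr : 20 ≤ r) : (E.filter fun a => scl W a ≤ r).card ≤ 2 ^ r := by
  classical
  obtain ⟨Ws, hW1, hW2⟩ := h4.1 (r - 19)
  have hcard : (E.filter fun a => scl W a ≤ r).card ≤ Ws.toFinset.card := by
    refine Finset.card_le_card_of_injOn
      (fun p : ℕ × List Bool => List.replicate p.1 true ++ false :: p.2) ?_ ?_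
    · intro p hp
      have hp' : scl W p ≤ r := (Finset.mem_filter.1 (Finset.mem_coe.1 hp)).2
      refine Finset.mem_coe.2 (List.mem_toFinset.2 (hW2 _ ?_))
      rw [List.length_append, List.length_replicate, List.length_cons]
      unfold scl at hp'
      omega
    · intro p _ p' _ h
      obtain ⟨h1, h2⟩ := enc_inj _ _ _ _ h
      exact Prod.ext h1 h2
  have h3 := List.toFinset_card_le Ws
  have h5 : 2 ^ (r - 19 + 1) ≤ 2 ^ r := Nat.pow_le_pow_right (by norm_num) (by omega)
  omega

open Classical in
/-- CLO: the answers of the instances of scale at most `r` are formulas. -/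
theorem pf_CLO (h1 : Pool.Agent.H70.EI.T_LCL) (h2 : Pool.Agent.H6.NB.T_CLB)
    (h3 : Pool.Agent.H70.EI.T_CNJ) (h4 : Pool.Agent.H6.NB.T_FIS) : T_CLO := by
  intro X V E r O κ hO hr
  have hb0 : 1 ≤ bd r := by
    have := bd_le r 0 hr (by omega)
    simpa using this
  have hS : 2 ≤ 2 ^ bd r := by
    calc 2 = 2 ^ 1 := by norm_num
      _ ≤ 2 ^ bd r := Nat.pow_le_pow_right (by norm_num) hb0
  have mono := (h2 X (2 ^ bd r) hS).2.1
  have hg : ∀ i ∈ univ.filter (fun i : {a // a ∈ E} => scl (lx V) i.1 ≤ r),
      Cl X (2 ^ bd r) r fun y => ax V (O y) i.1 := by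
    intro i hi
    have hi' : scl (lx V) i.1 ≤ r := (Finset.mem_filter.1 hi).2
    obtain ⟨⟨j, x⟩, hiE⟩ := i
    have hk : x.length + j + (x.length ^ (V j).c + (V j).c) + 20 ≤ r := hi'
    have hbound := (V j).bound x.length
    have ht : (V j).M.time x.length + 1 ≤ bd r := by
      have e1 : (V j).M.time x.length < 2 ^ (Nat.log 2 ((V j).M.time x.length) + 1) :=
        Nat.lt_pow_succ_log_self (by norm_num) _
      have e2 := bd_le r (Nat.log 2 ((V j).M.time x.length) + 1) hr (by omega)
      omega
    have h5 := h1 X (2 ^ bd r) ((V j).M.time x.length) ((V j).M.alt x.length)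
      ((V j).M.tree x) O hS (Nat.pow_le_pow_right (by norm_num) ht) hO
      (fun ws hl hws => ⟨(V j).M.depth_le x ws hl hws, (V j).M.short x ws hl hws⟩)
    have h6 := mono _ _ _ (show (V j).M.alt x.length + 3 ≤ r by omega) h5
    have e : (fun y => ax V (O y) (j, x)) = fun y =>
        decide (Alt (fun w => w.length ≤ (V j).M.time x.length) true ((V j).M.alt x.length)
          fun ws => ((V j).M.tree x ws).eval (O y) = true) := by
      funext y
      unfold ax
      rw [decide_eq_decide]
      exact Iff.rfl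
    rw [e]
    exact h6
  have hJ : (univ.filter (fun i : {a // a ∈ E} => scl (lx V) i.1 ≤ r)).card ≤ 2 ^ bd r := by
    have e1 : (univ.filter (fun i : {a // a ∈ E} => scl (lx V) i.1 ≤ r)).card ≤
        (E.filter fun a => scl (lx V) a ≤ r).card := by
      refine Finset.card_le_card_of_injOn (fun i => i.1) (fun i hi => ?_)
        (fun i _ j _ hij => Subtype.ext hij)
      exact Finset.mem_coe.2 (Finset.mem_filter.2 ⟨i.2, (Finset.mem_filter.1 hi).2⟩)
    have e2 := card_le h4 (lx V) E r hr
    have e3 : (2 : ℕ) ^ r ≤ 2 ^ bd r := by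
      refine Nat.pow_le_pow_right (by norm_num) ?_
      exact (Nat.lt_two_pow_self).le.trans (bd_le r r hr le_rfl)
    omega
  have h7 := h3 X {a // a ∈ E} (2 ^ bd r) r (univ.filter (fun i : {a // a ∈ E} =>
    scl (lx V) i.1 ≤ r)) (fun i y => ax V (O y) i.1) κ hS hJ hg
  refine Eq.mpr (congrArg (Cl _ _ _) (funext fun y => decide_eq_decide.2 ?_)) h7
  constructor
  · intro h i hi
    exact h i (Finset.mem_filter.1 hi).2
  · intro h i hi
    exact h i (Finset.mem_filter.2 ⟨Finset.mem_univ _, hi⟩)

end Pool.Agent.H32.XX
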